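import Pool.Agent.Y816.PS.I

/-!
# Consecutive decimal palindromes with few prime factors
-/

set_option autoImplicit false

namespace Pool.Agent.Results.MP_540de1_nt.MiddleDigitTuples

open Finset

/-- Let `E` be a nonempty set of at most four decimal digits which misses some residue class modulo `3`, for example
`{0, 1}`. For every `x` with `2 N + 1` decimal digits and leading digit `1`, `3`, `7` or `9` there are at least
`c 10 ^ L / L ^ B` numbers `n` with middle digit `0` such that for all `e ∈ E` the number `n + e 10 ^ N` (the middle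
digit replaced by `e`) is a palindrome, has the `N - L` leading digits of `x`, has only prime factors `p` with
`p ^ B > 10 ^ L`, and has fewer than `B (2 N + 1) / L` prime factors. -/
theorem result (E : Finset ℕ) (hE : E.Nonempty) (hE4 : E.card ≤ 4) (hE10 : ∀ e ∈ E, e < 10)
    (h3 : ∃ r : ℕ, ∀ e ∈ E, e % 3 ≠ r % 3) :
    ∃ c : ℝ, 0 < c ∧ ∃ B L₀ : ℕ, ∀ L N x : ℕ, L₀ ≤ L → L < N →
    10 ^ (2 * N) ≤ x → x < 10 ^ (2 * N + 1) → (x / 10 ^ (2 * N)).Coprime 10 →
    c * (10 : ℝ) ^ L / (L : ℝ) ^ B ≤ (((range (10 ^ (2 * N + 1))).filter (fun n => n / 10 ^ N % 10 = 0 ∧ ∀ e ∈ E,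
      (Nat.digits 10 (n + e * 10 ^ N)).reverse = Nat.digits 10 (n + e * 10 ^ N) ∧
      (n + e * 10 ^ N) / 10 ^ (N + L + 1) = x / 10 ^ (N + L + 1) ∧
      (∀ p ∈ (n + e * 10 ^ N).primeFactorsList, 10 ^ L < p ^ B) ∧
      (n + e * 10 ^ N).primeFactorsList.length * L < B * (2 * N + 1))).card : ℝ) := by
  have h := Pool.Agent.Y816.PS.tuples (b := 10) (by norm_num) E hE hE4 hE10 (fun _ _ => Or.inl (by decide))
    (fun _ => h3)
  push_cast at h
  exact h

end Pool.Agent.Results.MP_540de1_nt.MiddleDigitTuples
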