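import Mathlib
import Pool.Agent.H476R2.Pal.BV2

/-!
An upper bound with an explicit constant for the number of decimal palindromic primes with `2 L + 1` digits: at most
`20 / 3 + ε` times the number `5 * 10 ^ L / (L * log 10)` that one expects.
-/

set_option autoImplicit false

namespace Pool.Agent.Results.MP_540de1_nt.PrimesUpperBound

open Finset Filter

/-- For all large `L`, there are at most `20 / 3 + ε` times the expected number `5 * 10 ^ L / (L * log 10)` of primes
with exactly `2 L + 1` decimal digits whose digit sequence equals its own reverse. -/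
theorem result (ε : ℝ) (hε : 0 < ε) : ∀ᶠ L : ℕ in atTop,
    (((range (10 ^ (2 * L + 1))).filter (fun n => 10 ^ (2 * L) ≤ n ∧
        (Nat.digits 10 n).reverse = Nat.digits 10 n ∧ n.Prime)).card : ℝ)
      ≤ (20 / 3 + ε) * (5 * 10 ^ L / (L * Real.log 10)) :=
  Pool.Agent.H476R2.Pal.primes_upper2 ε hε

end Pool.Agent.Results.MP_540de1_nt.PrimesUpperBound
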