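import Pool.Agent.Y816.PS.J

/-!
# Decimal palindromes with few prime factors in residue classes, with prescribed outer digits
-/

set_option autoImplicit false

namespace Pool.Agent.Results.MP_540de1_nt.ResidueClasses

open Finset

/-- There is an absolute constant `B` such that for all moduli `M` coprime to `10` and all residue classes `a` coprime
to `M`: for every `x` with `2 N + 1` decimal digits and leading digit `1`, `3`, `7` or `9` at least `c 10 ^ L / L`
palindromes `n ≡ a` modulo `M` have the `N - L` leading digits of `x`, only prime factors `p` with `p ^ B > 10 ^ L`, and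
fewer than `B (2 N + 1) / L` prime factors. -/
theorem result : ∃ B : ℕ, ∀ M a : ℕ, 0 < M → M.Coprime 10 → a.Coprime M →
    ∃ c : ℝ, 0 < c ∧ ∃ L₀ : ℕ, ∀ L N x : ℕ, L₀ ≤ L → L < N →
    10 ^ (2 * N) ≤ x → x < 10 ^ (2 * N + 1) → (x / 10 ^ (2 * N)).Coprime 10 →
    c * (10 : ℝ) ^ L / L ≤ (((range (10 ^ (2 * N + 1))).filter (fun n =>
      (Nat.digits 10 n).reverse = Nat.digits 10 n ∧ n / 10 ^ (N + L + 1) = x / 10 ^ (N + L + 1) ∧ n % M = a % M ∧
      (∀ p ∈ n.primeFactorsList, 10 ^ L < p ^ B) ∧
      n.primeFactorsList.length * L < B * (2 * N + 1))).card : ℝ) := by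
  obtain ⟨B, h⟩ := Pool.Agent.Y816.PS.palclass
  refine ⟨B, fun M a hM hM10 ha => ?_⟩
  have h2 : M.Coprime (2 * 10) :=
    Nat.Coprime.mul_right (Nat.Coprime.coprime_dvd_right (by norm_num) hM10) hM10
  have h1 := h 10 (by norm_num) M a hM h2 ha
  push_cast at h1
  exact h1

end Pool.Agent.Results.MP_540de1_nt.ResidueClasses
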