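import Pool.Agent.Y816.PS.F

/-!
# Decimal palindromes with prescribed outer digits and in short intervals: almost primes and primes
-/

set_option autoImplicit false

namespace Pool.Agent.Results.MP_540de1_nt.ShortIntervals

open Finset

/-- `x` runs over the integers with `2 N + 1` decimal digits.

(1) The leading `N - L` digits prescribed (those of `x`), `L` large: at most `C 10 ^ L / L` palindromes have only prime
factors `p` with `p ^ 12 > 10 ^ L`, and at most `C 10 ^ L / L` are prime. If the leading digit of `x` is coprime to the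
base, then at least `c 10 ^ L / L` palindromes have only prime factors `p` with `p ^ 12 > 10 ^ L`, hence fewer than
`12 (2 N + 1) / L` prime factors.

(2) For `0 < δ ≤ 1` and large `N`, and a leading digit coprime to the base, at least `c 10 ^ (δ N) / N` palindromes `n`
with `|n - x| < x ^ ((1 + δ) / 2)` have at most `25 / δ` prime factors, all of them larger than `x ^ (δ / 25)`. -/
theorem result :
    (∃ c C : ℝ, 0 < c ∧ 0 < C ∧ ∃ L₀ : ℕ, ∀ L N x : ℕ, L₀ ≤ L → L < N →
      10 ^ (2 * N) ≤ x → x < 10 ^ (2 * N + 1) →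
      ((x / 10 ^ (2 * N)).Coprime 10 →
        c * (10 : ℝ) ^ L / L ≤ (((range (10 ^ (2 * N + 1))).filter (fun n =>
          (Nat.digits 10 n).reverse = Nat.digits 10 n ∧ n / 10 ^ (N + L + 1) = x / 10 ^ (N + L + 1) ∧
          (∀ p ∈ n.primeFactorsList, 10 ^ L < p ^ 12) ∧
          n.primeFactorsList.length * L < 12 * (2 * N + 1))).card : ℝ)) ∧
      (((range (10 ^ (2 * N + 1))).filter (fun n =>
        (Nat.digits 10 n).reverse = Nat.digits 10 n ∧ n / 10 ^ (N + L + 1) = x / 10 ^ (N + L + 1) ∧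
        ∀ p ∈ n.primeFactorsList, 10 ^ L < p ^ 12)).card : ℝ) ≤ C * (10 : ℝ) ^ L / L ∧
      (((range (10 ^ (2 * N + 1))).filter (fun n =>
        (Nat.digits 10 n).reverse = Nat.digits 10 n ∧ n / 10 ^ (N + L + 1) = x / 10 ^ (N + L + 1) ∧
        n.Prime)).card : ℝ) ≤ C * (10 : ℝ) ^ L / L) ∧
    (∀ δ : ℝ, 0 < δ → δ ≤ 1 → ∃ c : ℝ, 0 < c ∧ ∃ N₀ : ℕ,
      ∀ N x : ℕ, N₀ ≤ N → 10 ^ (2 * N) ≤ x → x < 10 ^ (2 * N + 1) → (x / 10 ^ (2 * N)).Coprime 10 →
      c * (10 : ℝ) ^ (δ * N) / N ≤ (((range (10 ^ (2 * N + 1))).filter (fun n =>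
        (Nat.digits 10 n).reverse = Nat.digits 10 n ∧ |(n : ℝ) - x| < (x : ℝ) ^ ((1 + δ) / 2) ∧
        (n.primeFactorsList.length : ℝ) ≤ 25 / δ ∧
        ∀ p ∈ n.primeFactorsList, (x : ℝ) ^ (δ / 25) < p)).card : ℝ)) := by
  have h1 := Pool.Agent.Y816.PS.paltwo (b := 10) (by norm_num)
  have h2 := Pool.Agent.Y816.PS.palint (b := 10) (by norm_num)
  push_cast at h1 h2
  exact ⟨h1, h2⟩

end Pool.Agent.Results.MP_540de1_nt.ShortIntervals
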